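import Mathlib

/-!
# Berge hypergraphs in simple (0,1)-matrices: definitions
-/

set_option autoImplicit false

namespace Pool.Agent.K3h58.BG

/-- `A` is a simple (0,1)-matrix: all entries are 0 or 1 and no two columns are equal. -/
def IsSimple {m n : ℕ} (A : Matrix (Fin m) (Fin n) ℕ) : Prop :=
  (∀ i j, A i j = 0 ∨ A i j = 1) ∧ ∀ j j', (∀ i, A i j = A i j') → j = j'

/-- `F ≪ A` (`A` has `F` as a Berge hypergraph): there are distinct rows and distinct columns of
`A`, in any order, such that `F` is entrywise at most the matrix which they form. -/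
def Berge {k l m n : ℕ} (F : Matrix (Fin k) (Fin l) ℕ) (A : Matrix (Fin m) (Fin n) ℕ) : Prop :=
  ∃ (r : Fin k ↪ Fin m) (c : Fin l ↪ Fin n), ∀ i j, F i j ≤ A (r i) (c j)

/-- `Bh(m, F)`: the largest number of columns of a simple (0,1)-matrix `A` with `m` rows and
without `F` as a Berge hypergraph. -/
noncomputable def Bh {k l : ℕ} (m : ℕ) (F : Matrix (Fin k) (Fin l) ℕ) : ℕ :=
  sSup {n : ℕ | ∃ A : Matrix (Fin m) (Fin n) ℕ, IsSimple A ∧ ¬ Berge F A}

/-- The product `1_1 × C_4` with `C_4 = I_2 × I_2`. -/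
def oneC4 : Matrix (Fin 5) (Fin 4) ℕ :=
  !![1, 1, 1, 1;
     1, 1, 0, 0;
     0, 0, 1, 1;
     1, 0, 1, 0;
     0, 1, 0, 1]

end Pool.Agent.K3h58.BG
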