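import Pool.Agent.K3h58.BG.Defs

/-!
# The lower bound

For a prime `p` the rows are the pairs `(x, k)` with `x ∈ F_p^* × F_p` and `k < 3`, and the columns are
the triples `(x, 0), (y, 1), (z, 2)` with `x_2 + y_2 + z_2 = x_1 y_1 z_1`.
-/

set_option autoImplicit false

namespace Pool.Agent.K3h58.BG

open Finset Function

variable {p : ℕ}

/-- the values of the vertices -/
abbrev W (p : ℕ) : Type := (ZMod p)ˣ × ZMod p

/-- the relation -/
def Rel (x y z : W p) : Prop := x.2 + y.2 + z.2 = (x.1 : ZMod p) * y.1 * z.1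

theorem Rel.s12 {x y z : W p} (h : Rel x y z) : Rel y x z := by
  unfold Rel at h ⊢
  rw [add_comm y.2, mul_comm (y.1 : ZMod p)]
  exact h

theorem Rel.s23 {x y z : W p} (h : Rel x y z) : Rel x z y := by
  unfold Rel at h ⊢
  rw [add_right_comm, mul_right_comm]
  exact h

/-- links contain no cycle of length four -/
theorem no_c4 [Fact p.Prime] (v x x' y y' : W p) (hx : x ≠ x') (hy : y ≠ y')
    (h1 : Rel v x y) (h2 : Rel v x y') (h3 : Rel v x' y) (h4 : Rel v x' y') : False := by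
  unfold Rel at h1 h2 h3 h4
  have e1 : y.2 - y'.2 = v.1 * x.1 * ((y.1 : ZMod p) - y'.1) := by linear_combination h1 - h2
  have e2 : y.2 - y'.2 = v.1 * x'.1 * ((y.1 : ZMod p) - y'.1) := by linear_combination h3 - h4
  have e3 : x.2 - x'.2 = v.1 * y.1 * ((x.1 : ZMod p) - x'.1) := by linear_combination h1 - h3
  have e4 : (v.1 : ZMod p) * (((x.1 : ZMod p) - x'.1) * ((y.1 : ZMod p) - y'.1)) = 0 := by
    linear_combination e2 - e1
  rcases mul_eq_zero.1 e4 with h | h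
  · exact v.1.ne_zero h
  · rcases mul_eq_zero.1 h with h | h
    · apply hx
      rw [h, mul_zero] at e3
      exact Prod.ext (Units.ext (sub_eq_zero.1 h)) (sub_eq_zero.1 e3)
    · apply hy
      rw [h, mul_zero] at e1
      exact Prod.ext (Units.ext (sub_eq_zero.1 h)) (sub_eq_zero.1 e1)

/-- the columns -/
abbrev Q (p : ℕ) : Type := ((ZMod p)ˣ × (ZMod p)ˣ × (ZMod p)ˣ) × (ZMod p × ZMod p)

/-- the three vertices of a column -/
def V (q : Q p) : Fin 3 → W p :=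
  ![(q.1.1, q.2.1), (q.1.2.1, q.2.2),
    (q.1.2.2, (q.1.1 : ZMod p) * q.1.2.1 * q.1.2.2 - q.2.1 - q.2.2)]

theorem V_rel (q : Q p) (a b c : Fin 3) (hab : a ≠ b) (hac : a ≠ c) (hbc : b ≠ c) :
    Rel (V q a) (V q b) (V q c) := by
  have h : Rel (V q 0) (V q 1) (V q 2) := by
    simp only [Rel, V, Matrix.cons_val_zero, Matrix.cons_val_one, Matrix.cons_val]
    ring
  have key : ∀ a b c : Fin 3, a ≠ b → a ≠ c → b ≠ c →
      (a, b, c) = (0, 1, 2) ∨ (a, b, c) = (0, 2, 1) ∨ (a, b, c) = (1, 0, 2) ∨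
      (a, b, c) = (1, 2, 0) ∨ (a, b, c) = (2, 0, 1) ∨ (a, b, c) = (2, 1, 0) := by decide
  rcases key a b c hab hac hbc with h1 | h1 | h1 | h1 | h1 | h1 <;>
    (simp only [Prod.mk.injEq] at h1; obtain ⟨rfl, rfl, rfl⟩ := h1)
  · exact h
  · exact h.s23
  · exact h.s12
  · exact h.s12.s23
  · exact h.s23.s12
  · exact h.s12.s23.s12

theorem V_inj {q q' : Q p} (h : V q = V q') : q = q' := by
  have h0 := congrFun h 0
  have h1 := congrFun h 1
  have h2 := congrFun h 2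
  simp only [V, Matrix.cons_val_zero, Matrix.cons_val_one, Matrix.cons_val, Prod.mk.injEq] at h0 h1 h2
  obtain ⟨⟨a, b, c⟩, d, e⟩ := q
  obtain ⟨⟨a', b', c'⟩, d', e'⟩ := q'
  simp only at h0 h1 h2
  obtain ⟨rfl, rfl⟩ := h0
  obtain ⟨rfl, rfl⟩ := h1
  obtain ⟨rfl, -⟩ := h2
  rfl

theorem card_Q [hp : Fact p.Prime] : Fintype.card (Q p) = (p - 1) ^ 3 * p ^ 2 := by
  simp only [Fintype.card_prod, ZMod.card_units, ZMod.card]
  ring

theorem card_rows [hp : Fact p.Prime] : Fintype.card (W p × Fin 3) = (p - 1) * p * 3 := by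
  simp only [Fintype.card_prod, ZMod.card_units, ZMod.card, Fintype.card_fin]

/-- the construction -/
theorem exists_matrix (hp : p.Prime) {m : ℕ} (hm : 3 * p ^ 2 ≤ m) :
    ∃ A : Matrix (Fin m) (Fin ((p - 1) ^ 3 * p ^ 2)) ℕ, IsSimple A ∧ ¬ Berge oneC4 A := by
  classical
  have : Fact p.Prime := ⟨hp⟩
  have hc : Fintype.card (W p × Fin 3) ≤ Fintype.card (Fin m) := by
    rw [card_rows, Fintype.card_fin]
    calc (p - 1) * p * 3 ≤ p * p * 3 := by
          apply Nat.mul_le_mul_right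
          apply Nat.mul_le_mul_right
          omega
      _ = 3 * p ^ 2 := by ring
      _ ≤ m := hm
  obtain ⟨e⟩ := Function.Embedding.nonempty_of_card_le hc
  have eq := Fintype.equivFinOfCardEq (card_Q (p := p))
  have hmem : ∀ (q : Q p) (w : W p) (k : Fin 3), (∃ k', e (w, k) = e (V q k', k')) ↔ w = V q k := by
    intro q w k
    constructor
    · rintro ⟨k', h⟩
      have := e.injective h
      rw [Prod.mk.injEq] at this
      obtain ⟨h1, rfl⟩ := this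
      exact h1
    · rintro rfl
      exact ⟨k, rfl⟩
  refine ⟨fun i j => if ∃ k, i = e (V (eq.symm j) k, k) then 1 else 0, ⟨?_, ?_⟩, ?_⟩
  · intro i j
    simp only
    split_ifs
    · exact Or.inr rfl
    · exact Or.inl rfl
  · intro j j' h
    apply eq.symm.injective
    apply V_inj
    funext k
    have h1 := h (e (V (eq.symm j) k, k))
    simp only [hmem] at h1
    by_contra hcon
    rw [if_pos trivial, if_neg hcon] at h1
    exact absurd h1 one_ne_zero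
  · rintro ⟨r, c, h⟩
    have h' : ∀ i j, oneC4 i j = 1 → ∃ k, r i = e (V (eq.symm (c j)) k, k) := by
      intro i j hij
      have h1 := h i j
      rw [hij] at h1
      by_contra hcon
      simp only [if_neg hcon] at h1
      omega
    obtain ⟨k0, hr0⟩ := h' 0 0 rfl
    obtain ⟨k1, hr1⟩ := h' 1 0 rfl
    obtain ⟨k3, hr3⟩ := h' 3 0 rfl
    obtain ⟨k2, hr2⟩ := h' 2 2 rfl
    obtain ⟨k4, hr4⟩ := h' 4 1 rfl
    obtain ⟨q1, hq1⟩ : ∃ q, q = eq.symm (c 0) := ⟨_, rfl⟩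
    obtain ⟨q2, hq2⟩ : ∃ q, q = eq.symm (c 1) := ⟨_, rfl⟩
    obtain ⟨q3, hq3⟩ : ∃ q, q = eq.symm (c 2) := ⟨_, rfl⟩
    obtain ⟨q4, hq4⟩ : ∃ q, q = eq.symm (c 3) := ⟨_, rfl⟩
    have m02 := h' 0 1 rfl
    have m03 := h' 0 2 rfl
    have m04 := h' 0 3 rfl
    have m12 := h' 1 1 rfl
    have m24 := h' 2 3 rfl
    have m33 := h' 3 2 rfl
    have m44 := h' 4 3 rfl
    rw [← hq1] at hr0 hr1 hr3
    rw [← hq2] at hr4 m02 m12
    rw [← hq3] at hr2 m03 m33
    rw [← hq4] at m04 m24 m44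
    obtain ⟨w0, hw0⟩ : ∃ w, w = V q1 k0 := ⟨_, rfl⟩
    obtain ⟨w1, hw1⟩ : ∃ w, w = V q1 k1 := ⟨_, rfl⟩
    obtain ⟨w3, hw3⟩ : ∃ w, w = V q1 k3 := ⟨_, rfl⟩
    obtain ⟨w2, hw2⟩ : ∃ w, w = V q3 k2 := ⟨_, rfl⟩
    obtain ⟨w4, hw4⟩ : ∃ w, w = V q2 k4 := ⟨_, rfl⟩
    rw [← hw0] at hr0
    rw [← hw1] at hr1
    rw [← hw2] at hr2
    rw [← hw3] at hr3
    rw [← hw4] at hr4
    rw [hr0, hmem] at m02 m03 m04
    rw [hr1, hmem] at m12
    rw [hr2, hmem] at m24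
    rw [hr3, hmem] at m33
    rw [hr4, hmem] at m44
    have hne : ∀ i j : Fin 5, i ≠ j → r i ≠ r j := fun i j hij h => hij (r.injective h)
    have n01 : k0 ≠ k1 := by
      rintro rfl
      apply hne 0 1 (by decide)
      rw [hr0, hr1, hw0, hw1]
    have n03 : k0 ≠ k3 := by
      rintro rfl
      apply hne 0 3 (by decide)
      rw [hr0, hr3, hw0, hw3]
    have n13 : k1 ≠ k3 := by
      rintro rfl
      apply hne 1 3 (by decide)
      rw [hr1, hr3, hw1, hw3]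
    have n04 : k0 ≠ k4 := by
      rintro rfl
      apply hne 0 4 (by decide)
      rw [hr0, hr4, m02, hw4]
    have n14 : k1 ≠ k4 := by
      rintro rfl
      apply hne 1 4 (by decide)
      rw [hr1, hr4, m12, hw4]
    have n02 : k0 ≠ k2 := by
      rintro rfl
      apply hne 0 2 (by decide)
      rw [hr0, hr2, m03, hw2]
    have n23 : k2 ≠ k3 := by
      rintro rfl
      apply hne 2 3 (by decide)
      rw [hr2, hr3, m33, hw2]
    have key : ∀ a b c d : Fin 3, a ≠ b → a ≠ c → b ≠ c → a ≠ d → b ≠ d → c = d := by decide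
    obtain rfl : k3 = k4 := key k0 k1 k3 k4 n01 n03 n13 n04 n14
    obtain rfl : k1 = k2 := key k0 k3 k1 k2 n03 n01 n13.symm n02 n23.symm
    have hx : w1 ≠ w2 := by
      rintro rfl
      exact hne 1 2 (by decide) (hr1.trans hr2.symm)
    have hy : w3 ≠ w4 := by
      rintro rfl
      exact hne 3 4 (by decide) (hr3.trans hr4.symm)
    refine no_c4 w0 w1 w2 w3 w4 hx hy ?_ ?_ ?_ ?_
    · rw [hw0, hw1, hw3]; exact V_rel _ _ _ _ n01 n03 n13
    · rw [m02, m12, hw4]; exact V_rel _ _ _ _ n01 n03 n13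
    · rw [m03, hw2, m33]; exact V_rel _ _ _ _ n01 n03 n13
    · rw [m04, m24, m44]; exact V_rel _ _ _ _ n01 n03 n13

/-- for `m ≥ 12` there is a prime `p` with `3 p ^ 2 ≤ m ≤ 12 p ^ 2` -/
theorem exists_prime {m : ℕ} (hm : 12 ≤ m) : ∃ p, p.Prime ∧ 3 * p ^ 2 ≤ m ∧ m ≤ 12 * p ^ 2 := by
  obtain ⟨N, hN⟩ : ∃ N, N = Nat.sqrt (m / 3) := ⟨_, rfl⟩
  have h1 : N * N ≤ m / 3 := by rw [hN]; exact Nat.sqrt_le _
  have h2 : m / 3 < (N + 1) * (N + 1) := by rw [hN]; exact Nat.lt_succ_sqrt _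
  have h3 : 2 ≤ N := by
    rw [hN, Nat.le_sqrt]
    omega
  obtain ⟨p, hp, hp1, hp2⟩ := Nat.exists_prime_lt_and_le_two_mul (N / 2) (by omega)
  refine ⟨p, hp, ?_, ?_⟩
  · have h4 : p ≤ N := by omega
    have h5 : p * p ≤ N * N := Nat.mul_le_mul h4 h4
    have h6 : p ^ 2 = p * p := by ring
    omega
  · have h4 : N + 1 ≤ 2 * p := by omega
    have h5 : (N + 1) * (N + 1) ≤ (2 * p) * (2 * p) := Nat.mul_le_mul h4 h4
    have h6 : (2 * p) * (2 * p) = 4 * p ^ 2 := by ring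
    omega

/-- **the lower bound** -/
theorem lower {m : ℕ} (hm : 1 ≤ m) : ∃ (n : ℕ) (A : Matrix (Fin m) (Fin n) ℕ), IsSimple A ∧
    ¬ Berge oneC4 A ∧ 1 / 8 * ((m : ℝ) / 12) ^ (5 / 2 : ℝ) ≤ n := by
  rcases Nat.lt_or_ge m 12 with h12 | h12
  · refine ⟨1, fun _ _ => 0, ⟨fun _ _ => Or.inl rfl, fun j j' _ => Subsingleton.elim _ _⟩, ?_, ?_⟩
    · rintro ⟨r, c, h⟩
      have h1 := h 0 0
      have h2 : oneC4 0 0 = 1 := rfl
      rw [h2] at h1
      exact absurd h1 (by norm_num)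
    · have h1 : (m : ℝ) / 12 ≤ 1 := by
        rw [div_le_one (by norm_num)]
        exact_mod_cast h12.le
      have h2 : ((m : ℝ) / 12) ^ (5 / 2 : ℝ) ≤ 1 := Real.rpow_le_one (by positivity) h1 (by norm_num)
      push_cast
      linarith
  · obtain ⟨p, hp, h3, h4⟩ := exists_prime h12
    obtain ⟨A, hA, hF⟩ := exists_matrix hp h3
    refine ⟨_, A, hA, hF, ?_⟩
    have hp2 : (2 : ℝ) ≤ p := by exact_mod_cast hp.two_le
    have hp0 : (0 : ℝ) < p := by linarith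
    have h5 : (m : ℝ) / 12 ≤ (p : ℝ) ^ 2 := by
      rw [div_le_iff₀ (by norm_num)]
      have : (m : ℝ) ≤ 12 * (p : ℝ) ^ 2 := by exact_mod_cast h4
      linarith
    have h6 : ((m : ℝ) / 12) ^ (5 / 2 : ℝ) ≤ (p : ℝ) ^ 5 := by
      calc ((m : ℝ) / 12) ^ (5 / 2 : ℝ) ≤ ((p : ℝ) ^ 2) ^ (5 / 2 : ℝ) :=
            Real.rpow_le_rpow (by positivity) h5 (by norm_num)
        _ = (p : ℝ) ^ 5 := by
            rw [← Real.rpow_natCast, ← Real.rpow_mul hp0.le, ← Real.rpow_natCast]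
            norm_num
    have h7 : ((p : ℝ) / 2) ^ 3 ≤ ((p : ℝ) - 1) ^ 3 :=
      pow_le_pow_left₀ (by positivity) (by linarith) 3
    have h8 : (((p - 1) ^ 3 * p ^ 2 : ℕ) : ℝ) = ((p : ℝ) - 1) ^ 3 * (p : ℝ) ^ 2 := by
      push_cast [Nat.cast_sub hp.one_le]
      ring
    rw [h8]
    calc 1 / 8 * ((m : ℝ) / 12) ^ (5 / 2 : ℝ) ≤ 1 / 8 * (p : ℝ) ^ 5 := by linarith
      _ = ((p : ℝ) / 2) ^ 3 * (p : ℝ) ^ 2 := by ring
      _ ≤ ((p : ℝ) - 1) ^ 3 * (p : ℝ) ^ 2 := mul_le_mul_of_nonneg_right h7 (by positivity)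

end Pool.Agent.K3h58.BG
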