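import Pool.Agent.K3h58.BG.Defs

/-!
# The upper bound
-/

set_option autoImplicit false

namespace Pool.Agent.K3h58.BG

open Finset Function

variable {m n : ℕ}

/-- the support of a column -/
def supp (A : Matrix (Fin m) (Fin n) ℕ) (j : Fin n) : Finset (Fin m) :=
  univ.filter (fun i => A i j = 1)

theorem supp_inj {A : Matrix (Fin m) (Fin n) ℕ} (hA : IsSimple A) : Injective (supp A) := by
  intro j j' h
  apply hA.2
  intro i
  have h1 : i ∈ supp A j ↔ i ∈ supp A j' := by rw [h]
  simp only [supp, mem_filter, mem_univ, true_and] at h1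
  rcases hA.1 i j with h2 | h2 <;> rcases hA.1 i j' with h3 | h3
  · rw [h2, h3]
  · rw [h2] at h1
    exact absurd (h1.2 h3) (by norm_num)
  · rw [h3] at h1
    exact absurd (h1.1 h2) (by norm_num)
  · rw [h2, h3]

/-- the columns can be thinned out to a family closed under taking subsets -/
theorem exists_down {A : Matrix (Fin m) (Fin n) ℕ} (hA : IsSimple A) :
    ∃ ψ : Fin n → Finset (Fin m), Injective ψ ∧ (∀ j, ψ j ⊆ supp A j) ∧
      ∀ j T, T ⊆ ψ j → ∃ j', ψ j' = T := by
  classical
  obtain ⟨ψ, hψ, hmin⟩ := exists_min_image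
    ((univ : Finset (Fin n → Finset (Fin m))).filter
      (fun ψ => Injective ψ ∧ ∀ j, ψ j ⊆ supp A j)) (fun ψ => ∑ j, (ψ j).card)
    ⟨supp A, by
      rw [mem_filter]
      exact ⟨mem_univ _, supp_inj hA, fun j => Subset.refl _⟩⟩
  rw [mem_filter] at hψ
  obtain ⟨-, h1, h2⟩ := hψ
  refine ⟨ψ, h1, h2, fun j T hT => ?_⟩
  by_contra hcon
  push Not at hcon
  have hmem : update ψ j T ∈ (univ : Finset (Fin n → Finset (Fin m))).filter
      (fun ψ => Injective ψ ∧ ∀ j, ψ j ⊆ supp A j) := by
    rw [mem_filter]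
    refine ⟨mem_univ _, ?_, ?_⟩
    · intro a b hab
      by_cases ha : a = j <;> by_cases hb : b = j
      · rw [ha, hb]
      · subst ha
        rw [update_self, update_of_ne hb] at hab
        exact absurd hab.symm (hcon b)
      · subst hb
        rw [update_self, update_of_ne ha] at hab
        exact absurd hab (hcon a)
      · rw [update_of_ne ha, update_of_ne hb] at hab
        exact h1 hab
    · intro a
      by_cases ha : a = j
      · subst ha
        rw [update_self]
        exact hT.trans (h2 a)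
      · rw [update_of_ne ha]
        exact h2 a
  have h3 := hmin _ hmem
  have h4 : ∑ a, (update ψ j T a).card < ∑ a, (ψ a).card := by
    apply sum_lt_sum
    · intro a _
      by_cases ha : a = j
      · subst ha
        rw [update_self]
        exact card_le_card hT
      · rw [update_of_ne ha]
    · refine ⟨j, mem_univ _, ?_⟩
      rw [update_self]
      exact card_lt_card (hT.ssubset_of_ne (fun h => hcon j h.symm))
  omega

/-- the data of the thinned family -/
structure Down (D : Finset (Finset (Fin m))) : Prop where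
  down : ∀ S ∈ D, ∀ T, T ⊆ S → T ∈ D
  free : ∀ v x x' y y' : Fin m, v ≠ x → v ≠ x' → v ≠ y → v ≠ y' → x ≠ x' → x ≠ y → x ≠ y' →
    x' ≠ y → x' ≠ y' → y ≠ y' → {v, x, y} ∈ D → {v, x, y'} ∈ D → {v, x', y} ∈ D →
    {v, x', y'} ∈ D → False

theorem exists_Down {A : Matrix (Fin m) (Fin n) ℕ} (hA : IsSimple A) (hF : ¬ Berge oneC4 A) :
    ∃ D : Finset (Finset (Fin m)), D.card = n ∧ Down D := by
  classical
  obtain ⟨ψ, h1, h2, h3⟩ := exists_down hA
  refine ⟨univ.image ψ, by rw [card_image_of_injective _ h1]; simp, ?_, ?_⟩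
  · intro S hS T hT
    obtain ⟨j, -, rfl⟩ := mem_image.1 hS
    obtain ⟨j', rfl⟩ := h3 j T hT
    exact mem_image_of_mem _ (mem_univ _)
  · intro v x x' y y' a1 a2 a3 a4 a5 a6 a7 a8 a9 a10 b1 b2 b3 b4
    obtain ⟨j1, -, e1⟩ := mem_image.1 b1
    obtain ⟨j2, -, e2⟩ := mem_image.1 b2
    obtain ⟨j3, -, e3⟩ := mem_image.1 b3
    obtain ⟨j4, -, e4⟩ := mem_image.1 b4
    have n12 : j1 ≠ j2 := by
      rintro rfl
      have h : y ∈ ({v, x, y'} : Finset (Fin m)) := by rw [← e2, e1]; simp
      simp only [mem_insert, mem_singleton] at h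
      rcases h with h | h | h
      · exact a3 h.symm
      · exact a6 h.symm
      · exact a10 h
    have n13 : j1 ≠ j3 := by
      rintro rfl
      have h : x ∈ ({v, x', y} : Finset (Fin m)) := by rw [← e3, e1]; simp
      simp only [mem_insert, mem_singleton] at h
      rcases h with h | h | h
      · exact a1 h.symm
      · exact a5 h
      · exact a6 h
    have n14 : j1 ≠ j4 := by
      rintro rfl
      have h : x ∈ ({v, x', y'} : Finset (Fin m)) := by rw [← e4, e1]; simp
      simp only [mem_insert, mem_singleton] at h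
      rcases h with h | h | h
      · exact a1 h.symm
      · exact a5 h
      · exact a7 h
    have n23 : j2 ≠ j3 := by
      rintro rfl
      have h : x ∈ ({v, x', y} : Finset (Fin m)) := by rw [← e3, e2]; simp
      simp only [mem_insert, mem_singleton] at h
      rcases h with h | h | h
      · exact a1 h.symm
      · exact a5 h
      · exact a6 h
    have n24 : j2 ≠ j4 := by
      rintro rfl
      have h : x ∈ ({v, x', y'} : Finset (Fin m)) := by rw [← e4, e2]; simp
      simp only [mem_insert, mem_singleton] at h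
      rcases h with h | h | h
      · exact a1 h.symm
      · exact a5 h
      · exact a7 h
    have n34 : j3 ≠ j4 := by
      rintro rfl
      have h : y ∈ ({v, x', y'} : Finset (Fin m)) := by rw [← e4, e3]; simp
      simp only [mem_insert, mem_singleton] at h
      rcases h with h | h | h
      · exact a3 h.symm
      · exact a8 h.symm
      · exact a10 h
    apply hF
    have hA1 : ∀ i j, i ∈ ψ j → 1 ≤ A i j := by
      intro i j h
      have := h2 j h
      rw [supp, mem_filter] at this
      omega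
    have c1 : ∀ u ∈ ({v, x, y} : Finset (Fin m)), 1 ≤ A u j1 := fun u hu => hA1 u j1 (e1 ▸ hu)
    have c2 : ∀ u ∈ ({v, x, y'} : Finset (Fin m)), 1 ≤ A u j2 := fun u hu => hA1 u j2 (e2 ▸ hu)
    have c3 : ∀ u ∈ ({v, x', y} : Finset (Fin m)), 1 ≤ A u j3 := fun u hu => hA1 u j3 (e3 ▸ hu)
    have c4 : ∀ u ∈ ({v, x', y'} : Finset (Fin m)), 1 ≤ A u j4 := fun u hu => hA1 u j4 (e4 ▸ hu)
    simp only [mem_insert, mem_singleton, forall_eq_or_imp, forall_eq] at c1 c2 c3 c4
    obtain ⟨c11, c12, c13⟩ := c1
    obtain ⟨c21, c22, c23⟩ := c2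
    obtain ⟨c31, c32, c33⟩ := c3
    obtain ⟨c41, c42, c43⟩ := c4
    refine ⟨⟨![v, x, x', y, y'], ?_⟩, ⟨![j1, j2, j3, j4], ?_⟩, ?_⟩
    · intro a b hab
      fin_cases a <;> fin_cases b <;> simp at hab <;> first
        | rfl
        | exact absurd hab (by assumption)
        | exact absurd hab.symm (by assumption)
    · intro a b hab
      fin_cases a <;> fin_cases b <;> simp at hab <;> first
        | rfl
        | exact absurd hab (by assumption)
        | exact absurd hab.symm (by assumption)
    · intro i j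
      fin_cases i <;> fin_cases j <;> first
        | exact Nat.zero_le _
        | exact c11
        | exact c12
        | exact c13
        | exact c21
        | exact c22
        | exact c23
        | exact c31
        | exact c32
        | exact c33
        | exact c41
        | exact c42
        | exact c43

namespace Down

variable {D : Finset (Finset (Fin m))}

theorem pair_mem {S : Finset (Fin m)} (h : Down D) (hS : S ∈ D) {a b c : Fin m} (ha : a ∈ S)
    (hb : b ∈ S) (hc : c ∈ S) : {a, b, c} ∈ D := by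
  apply h.down S hS
  intro u hu
  simp only [mem_insert, mem_singleton] at hu
  rcases hu with rfl | rfl | rfl <;> assumption

theorem card_le_four (h : Down D) {S : Finset (Fin m)} (hS : S ∈ D) : S.card ≤ 4 := by
  by_contra hcon
  obtain ⟨T, hT, hc⟩ := exists_subset_card_eq (s := S) (n := 5) (by omega)
  have e := T.equivFinOfCardEq hc
  have hm : ∀ i, (e.symm i : Fin m) ∈ S := fun i => hT (e.symm i).2
  have hn : ∀ i j, i ≠ j → (e.symm i : Fin m) ≠ e.symm j :=
    fun i j hij h => hij (e.symm.injective (Subtype.ext h))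
  exact h.free (e.symm 0) (e.symm 1) (e.symm 2) (e.symm 3) (e.symm 4)
    (hn _ _ (by decide)) (hn _ _ (by decide)) (hn _ _ (by decide)) (hn _ _ (by decide))
    (hn _ _ (by decide)) (hn _ _ (by decide)) (hn _ _ (by decide)) (hn _ _ (by decide))
    (hn _ _ (by decide)) (hn _ _ (by decide)) (h.pair_mem hS (hm _) (hm _) (hm _))
    (h.pair_mem hS (hm _) (hm _) (hm _)) (h.pair_mem hS (hm _) (hm _) (hm _))
    (h.pair_mem hS (hm _) (hm _) (hm _))

end Down

open Classical in
/-- the ordered triples of the family -/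
noncomputable def tri (D : Finset (Finset (Fin m))) : Finset (Fin m × Fin m × Fin m) :=
  univ.filter (fun p => p.1 ≠ p.2.1 ∧ p.1 ≠ p.2.2 ∧ p.2.1 ≠ p.2.2 ∧ {p.1, p.2.1, p.2.2} ∈ D)

open Classical in
/-- the link -/
noncomputable def nb (D : Finset (Finset (Fin m))) (v x : Fin m) : Finset (Fin m) :=
  univ.filter (fun y => v ≠ x ∧ v ≠ y ∧ x ≠ y ∧ {v, x, y} ∈ D)

theorem mem_nb {D : Finset (Finset (Fin m))} {v x y : Fin m} :
    y ∈ nb D v x ↔ v ≠ x ∧ v ≠ y ∧ x ≠ y ∧ {v, x, y} ∈ D := by
  classical
  simp [nb]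

theorem card_tri (D : Finset (Finset (Fin m))) :
    (tri D).card = ∑ v, ∑ x, (nb D v x).card := by
  classical
  have e : tri D = ((univ : Finset (Fin m)).sigma (fun v => (univ : Finset (Fin m)).sigma
      (fun x => nb D v x))).image (fun p => (p.1, p.2.1, p.2.2)) := by
    ext ⟨v, x, y⟩
    simp only [tri, mem_filter, mem_univ, true_and, mem_image, mem_sigma, Sigma.exists, mem_nb,
      Prod.mk.injEq]
    constructor
    · intro h
      exact ⟨v, x, y, h, rfl, rfl, rfl⟩
    · rintro ⟨v', x', y', h, rfl, rfl, rfl⟩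
      exact h
  rw [e, card_image_of_injective, card_sigma]
  · simp only [card_sigma]
  · rintro ⟨a, b, c⟩ ⟨a', b', c'⟩ h
    simp only [Prod.mk.injEq] at h
    obtain ⟨rfl, rfl, rfl⟩ := h
    rfl

/-- the number of the pairs at a vertex -/
theorem link_sq {D : Finset (Finset (Fin m))} (h : Down D) (v : Fin m) :
    (∑ x, (nb D v x).card) ^ 2 ≤ m * (∑ x, (nb D v x).card + m ^ 2) := by
  classical
  have h1 : (∑ x, (nb D v x).card) ^ 2 ≤ m * ∑ x, (nb D v x).card ^ 2 := by
    have := sq_sum_le_card_mul_sum_sq (s := (univ : Finset (Fin m)))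
      (f := fun x => (nb D v x).card)
    simpa using this
  refine h1.trans (Nat.mul_le_mul_left _ ?_)
  -- pairs of pairs
  have h2 : ∑ x, (nb D v x).card ^ 2 = ∑ y, ∑ y',
      ((univ : Finset (Fin m)).filter (fun x => y ∈ nb D v x ∧ y' ∈ nb D v x)).card := by
    have e1 : ∀ x, (nb D v x).card ^ 2 =
        ∑ y, ∑ y', if y ∈ nb D v x ∧ y' ∈ nb D v x then 1 else 0 := by
      intro x
      rw [sq, ← card_product, card_eq_sum_ones, ← sum_product']
      rw [← sum_filter]
      refine sum_congr ?_ fun _ _ => rfl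
      ext ⟨y, y'⟩
      simp
    simp_rw [e1, card_filter]
    rw [sum_comm]
    refine sum_congr rfl fun y _ => ?_
    rw [sum_comm]
  rw [h2]
  have h3 : ∀ y y', ((univ : Finset (Fin m)).filter
      (fun x => y ∈ nb D v x ∧ y' ∈ nb D v x)).card ≤
      (if y = y' then ((univ : Finset (Fin m)).filter (fun x => y ∈ nb D v x)).card else 0) + 1 := by
    intro y y'
    by_cases hy : y = y'
    · subst hy
      rw [if_pos rfl]
      simp
    · rw [if_neg hy, zero_add, card_le_one]
      intro a ha b hb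
      simp only [mem_filter, mem_univ, true_and, mem_nb] at ha hb
      by_contra hab
      obtain ⟨⟨a1, a2, a3, a4⟩, ⟨a5, a6, a7, a8⟩⟩ := ha
      obtain ⟨⟨b1, b2, b3, b4⟩, ⟨b5, b6, b7, b8⟩⟩ := hb
      exact h.free v a b y y' a1 b1 a2 a6 hab a3 a7 b3 b7 hy a4 a8 b4 b8
  calc ∑ y, ∑ y', ((univ : Finset (Fin m)).filter
        (fun x => y ∈ nb D v x ∧ y' ∈ nb D v x)).card
      ≤ ∑ y, ∑ y', ((if y = y' then
        ((univ : Finset (Fin m)).filter (fun x => y ∈ nb D v x)).card else 0) + 1) :=
        sum_le_sum fun y _ => sum_le_sum fun y' _ => h3 y y'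
    _ = ∑ y, ((univ : Finset (Fin m)).filter (fun x => y ∈ nb D v x)).card + m ^ 2 := by
        simp only [sum_add_distrib, sum_ite_eq, mem_univ, if_true, sum_const, card_univ,
          Fintype.card_fin, smul_eq_mul, mul_one]
        ring
    _ = ∑ x, (nb D v x).card + m ^ 2 := by
        congr 1
        simp_rw [card_filter]
        rw [sum_comm]
        refine sum_congr rfl fun x _ => ?_
        rw [← card_filter]
        congr 1
        ext y
        simp

theorem card_tri_le {D : Finset (Finset (Fin m))} (h : Down D) :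
    ((tri D).card : ℝ) ≤ 2 * (m : ℝ) ^ (5 / 2 : ℝ) := by
  rcases Nat.eq_zero_or_pos m with hm | hm
  · subst hm
    rw [card_tri]
    simp
  have hm1 : (1 : ℝ) ≤ m := by exact_mod_cast hm
  have hm0 : (0 : ℝ) < m := by linarith
  obtain ⟨s, hs⟩ : ∃ s : ℝ, s = √(m : ℝ) := ⟨_, rfl⟩
  have hs2 : s * s = m := by rw [hs]; exact Real.mul_self_sqrt hm0.le
  have hs1 : 1 ≤ s := by
    rw [hs]
    exact Real.one_le_sqrt.2 hm1
  have hpow : (m : ℝ) ^ (5 / 2 : ℝ) = m ^ 2 * s := by
    rw [show (5 / 2 : ℝ) = 2 + 1 / 2 by norm_num, Real.rpow_add hm0, hs, Real.sqrt_eq_rpow]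
    norm_num
  have key : ∀ v, ((∑ x, (nb D v x).card : ℕ) : ℝ) ≤ 2 * (m * s) := by
    intro v
    have h1 := link_sq h v
    obtain ⟨q, hq⟩ : ∃ q : ℕ, q = ∑ x, (nb D v x).card := ⟨_, rfl⟩
    rw [← hq] at h1 ⊢
    have h2 : (q : ℝ) ^ 2 ≤ m * (q + (m : ℝ) ^ 2) := by exact_mod_cast h1
    by_contra hcon
    push Not at hcon
    have hms : (m : ℝ) ≤ m * s := by nlinarith
    have h3 : (m : ℝ) * s < q - m := by nlinarith
    have h4 : 0 < m * s := by positivity
    have h5 : 2 * (m * s) * (m * s) < q * (q - m) := by nlinarith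
    have h6 : (m : ℝ) * s * (m * s) = m ^ 3 := by
      calc (m : ℝ) * s * (m * s) = m * m * (s * s) := by ring
        _ = m ^ 3 := by rw [hs2]; ring
    have h7 : 0 < (m : ℝ) ^ 3 := by positivity
    nlinarith
  rw [card_tri, hpow]
  push_cast
  calc ∑ v, ∑ x, ((nb D v x).card : ℝ) ≤ ∑ v : Fin m, 2 * (m * s) := by
        refine sum_le_sum fun v _ => ?_
        have := key v
        push_cast at this
        exact this
    _ = 2 * (m ^ 2 * s) := by
        rw [sum_const, card_univ, Fintype.card_fin, nsmul_eq_mul]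
        ring

theorem card_Down {D : Finset (Finset (Fin m))} (h : Down D) :
    D.card ≤ 1 + m ^ 2 + 2 * (tri D).card := by
  classical
  have h1 : (D.filter (fun S => S.card ≤ 2)).card ≤ 1 + m ^ 2 := by
    have hsub : D.filter (fun S => S.card ≤ 2) ⊆
        insert ∅ ((univ : Finset (Fin m × Fin m)).image (fun p => {p.1, p.2})) := by
      intro S hS
      obtain ⟨-, hc⟩ := mem_filter.1 hS
      rw [mem_insert, mem_image]
      rcases Nat.lt_or_ge S.card 1 with h0 | h0
      · left
        exact card_eq_zero.1 (by omega)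
      · right
        rcases Nat.lt_or_ge S.card 2 with h2 | h2
        · obtain ⟨a, rfl⟩ := card_eq_one.1 (show S.card = 1 by omega)
          exact ⟨(a, a), mem_univ _, by simp⟩
        · obtain ⟨a, b, -, rfl⟩ := card_eq_two.1 (show S.card = 2 by omega)
          exact ⟨(a, b), mem_univ _, rfl⟩
    refine (card_le_card hsub).trans ((card_insert_le _ _).trans ?_)
    have := (card_image_le (s := (univ : Finset (Fin m × Fin m)))
      (f := fun p => ({p.1, p.2} : Finset (Fin m))))
    rw [card_univ, Fintype.card_prod, Fintype.card_fin] at this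
    have e : m * m = m ^ 2 := by ring
    omega
  have h2 : (D.filter (fun S => S.card = 3)).card ≤ (tri D).card := by
    have hsub : D.filter (fun S => S.card = 3) ⊆
        (tri D).image (fun p => {p.1, p.2.1, p.2.2}) := by
      intro S hS
      obtain ⟨hS, hc⟩ := mem_filter.1 hS
      obtain ⟨a, b, c, hab, hac, hbc, rfl⟩ := card_eq_three.1 hc
      rw [mem_image]
      exact ⟨(a, b, c), by simp [tri, hab, hac, hbc, hS], rfl⟩
    exact (card_le_card hsub).trans card_image_le
  have h3 : (D.filter (fun S => S.card = 4)).card ≤ (tri D).card := by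
    apply card_le_card_of_forall_subsingleton
      (fun (S : Finset (Fin m)) (p : Fin m × Fin m × Fin m) =>
        ∃ d, p.1 ≠ p.2.1 ∧ p.1 ≠ p.2.2 ∧ p.2.1 ≠ p.2.2 ∧ p.1 ≠ d ∧ p.2.1 ≠ d ∧ p.2.2 ≠ d ∧
          S = {p.1, p.2.1, p.2.2, d})
    · intro S hS
      obtain ⟨hS, hc⟩ := mem_filter.1 hS
      obtain ⟨T, d, e⟩ : ∃ (T : Finset (Fin m)) (d : Fin m), T.card = 3 ∧ d ∉ T ∧ S = insert d T := by
        have h0 : 0 < S.card := by omega
        obtain ⟨d, hd⟩ := card_pos.1 h0
        exact ⟨S.erase d, d, by rw [card_erase_of_mem hd]; omega, notMem_erase d S,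
          (insert_erase hd).symm⟩
      obtain ⟨e1, e2, e3⟩ := e
      obtain ⟨a, b, c, hab, hac, hbc, rfl⟩ := card_eq_three.1 e1
      simp only [mem_insert, mem_singleton, not_or] at e2
      refine ⟨(a, b, c), ?_, d, hab, hac, hbc, fun h => e2.1 h.symm, ?_, ?_, ?_⟩
      · simp only [tri, mem_filter, mem_univ, true_and]
        refine ⟨hab, hac, hbc, ?_⟩
        apply h.down S hS
        rw [e3]
        exact subset_insert _ _
      · exact fun h => e2.2.1 h.symm
      · exact fun h => e2.2.2 h.symm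
      · rw [e3]
        ext u
        simp only [mem_insert, mem_singleton]
        tauto
    · rintro ⟨a, b, c⟩ hp S hS S' hS'
      obtain ⟨hSm, d, g1, g2, g3, g4, g5, g6, rfl⟩ := hS
      obtain ⟨hSm', d', g1', g2', g3', g4', g5', g6', rfl⟩ := hS'
      simp only at g1 g2 g3 g4 g5 g6 g4' g5' g6' hSm hSm' ⊢
      by_cases hd : d = d'
      · rw [hd]
      · exfalso
        have hSD := (mem_filter.1 hSm).1
        have hSD' := (mem_filter.1 hSm').1
        refine h.free a b c d d' g1 g2 g4 g4' g3 g5 g5' g6 g6' hd ?_ ?_ ?_ ?_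
        · exact h.pair_mem hSD (by simp) (by simp) (by simp)
        · exact h.pair_mem hSD' (by simp) (by simp) (by simp)
        · exact h.pair_mem hSD (by simp) (by simp) (by simp)
        · exact h.pair_mem hSD' (by simp) (by simp) (by simp)
  have h4 : D ⊆ D.filter (fun S => S.card ≤ 2) ∪ D.filter (fun S => S.card = 3) ∪
      D.filter (fun S => S.card = 4) := by
    intro S hS
    have := h.card_le_four hS
    simp only [mem_union, mem_filter]
    rcases (by omega : S.card ≤ 2 ∨ S.card = 3 ∨ S.card = 4) with h | h | h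
    · exact Or.inl (Or.inl ⟨hS, h⟩)
    · exact Or.inl (Or.inr ⟨hS, h⟩)
    · exact Or.inr ⟨hS, h⟩
  have h5 := card_le_card h4
  have h6 := card_union_le (D.filter (fun S => S.card ≤ 2) ∪ D.filter (fun S => S.card = 3))
    (D.filter (fun S => S.card = 4))
  have h7 := card_union_le (D.filter (fun S => S.card ≤ 2)) (D.filter (fun S => S.card = 3))
  omega

/-- **the upper bound** -/
theorem upper {A : Matrix (Fin m) (Fin n) ℕ} (hm : 1 ≤ m) (hA : IsSimple A)
    (hF : ¬ Berge oneC4 A) : (n : ℝ) ≤ 6 * (m : ℝ) ^ (5 / 2 : ℝ) := by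
  obtain ⟨D, hD, h⟩ := exists_Down hA hF
  have h1 := card_Down h
  rw [hD] at h1
  have h2 := card_tri_le h
  have h3 : (n : ℝ) ≤ 1 + (m : ℝ) ^ 2 + 2 * ((tri D).card : ℝ) := by exact_mod_cast h1
  have hm1 : (1 : ℝ) ≤ m := by exact_mod_cast hm
  have h4 : (m : ℝ) ^ 2 ≤ (m : ℝ) ^ (5 / 2 : ℝ) := by
    rw [← Real.rpow_natCast]
    exact Real.rpow_le_rpow_of_exponent_le hm1 (by norm_num)
  have h5 : (1 : ℝ) ≤ (m : ℝ) ^ (5 / 2 : ℝ) := Real.one_le_rpow hm1 (by norm_num)
  linarith

end Pool.Agent.K3h58.BG
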